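import Pool.Agent.N174.NC.SDefs
import Pool.Agent.N174.Lef.OMain

/-!
# The structure of the fixed classes on varieties times admissible subcategories
-/

open CategoryTheory AlgebraicGeometry TensorProduct

set_option linter.unusedSectionVars false

universe u v w

namespace Pool.Agent.N174.NC

open Pool.Agent.H914 Pool.Agent.H914.VarClass Pool.Agent.H914.VarClass.Obj
  Pool.Agent.H914.WeilCohomology Pool.Agent.H281R3.HT Pool.Agent.W552 Pool.Agent.TH125.Gal
  Pool.Agent.N174.Lef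

variable {k : Type u} [Field k] {𝒱 : VarClass k} {ops : CycleOps 𝒱}
  {W : WeilCohomology.{u, v} ops} {M : Type v} [AddCommGroup M] [Module W.K M]

section sys

variable {V V' : 𝒱.Obj} {C : ∀ V : 𝒱.Obj, AddSubgroup (W.H V ⊗[W.K] M)}

/-- stable under algebraic operators -/
structure OpSys (C : ∀ V : 𝒱.Obj, AddSubgroup (W.H V ⊗[W.K] M)) : Prop where
  rational : ∀ V, IsRational (C V)
  op : ∀ {V V' : 𝒱.Obj} {A : W.H V →ₗ[W.K] W.H V'}, AOp W V V' A → MapsTo A (C V) (C V')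

theorem rTensor_add' {A B : W.H V →ₗ[W.K] W.H V'} (c : W.H V ⊗[W.K] M) :
    (A + B).rTensor M c = A.rTensor M c + B.rTensor M c := by
  rw [LinearMap.rTensor_add, LinearMap.add_apply]

/-- Algebraic operators preserve the systems. -/
theorem IsSystem.opSys (hC : IsSystem C) : OpSys C where
  rational := hC.rational
  op := by
    rintro V V' - ⟨a, ha, rfl⟩
    intro c hc
    refine AS.ind (p := fun a => (W.corr a).rTensor M c ∈ C V') ?_ ?_ ha
    · intro j a ha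
      have h1 : W.corr a = W.push (snd V V') ∘ₗ LinearMap.mulLeft W.K a ∘ₗ
          (W.map (fst V V')).toLinearMap := by
        apply LinearMap.ext
        intro b
        exact corr_apply W a b
      rw [h1, LinearMap.rTensor_comp, LinearMap.comp_apply, LinearMap.rTensor_comp,
        LinearMap.comp_apply]
      exact hC.push _ _ (hC.mul _ _ a ha _ (hC.pull _ _ hc))
    · intro a b ha hb
      rw [corr_add, rTensor_add']
      exact add_mem ha hb

/-- the comparison -/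
noncomputable def kap (W : WeilCohomology.{u, v} ops) (V Z : 𝒱.Obj) (M : Type v)
    [AddCommGroup M] [Module W.K M] :
    W.H V ⊗[W.K] (W.H Z ⊗[W.K] M) ≃ₗ[W.K] W.H (V.prod Z) ⊗[W.K] M :=
  (TensorProduct.assoc W.K (W.H V) (W.H Z) M).symm ≪≫ₗ
    TensorProduct.congr (kEquiv W V Z) (LinearEquiv.refl W.K M)

theorem kap_tmul {V Z : 𝒱.Obj} (x : W.H V) (z : W.H Z) (m : M) :
    kap W V Z M (x ⊗ₜ[W.K] (z ⊗ₜ[W.K] m)) = kEquiv W V Z (x ⊗ₜ[W.K] z) ⊗ₜ[W.K] m := rfl

theorem kap_map {V V' Z Z' : 𝒱.Obj} (A : W.H V →ₗ[W.K] W.H V') (B : W.H Z →ₗ[W.K] W.H Z')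
    (T : M →ₗ[W.K] M) (c : W.H V ⊗[W.K] (W.H Z ⊗[W.K] M)) :
    kap W V' Z' M (TensorProduct.map A (TensorProduct.map B T) c) =
      TensorProduct.map (t2 A B) T (kap W V Z M c) := by
  have h1 : (kap W V' Z' M).toLinearMap ∘ₗ TensorProduct.map A (TensorProduct.map B T) =
      TensorProduct.map (t2 A B) T ∘ₗ (kap W V Z M).toLinearMap := by
    ext x z m
    simp only [TensorProduct.AlgebraTensorModule.curry_apply, TensorProduct.curry_apply,
      LinearMap.coe_restrictScalars, LinearMap.comp_apply, LinearEquiv.coe_coe,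
      TensorProduct.map_tmul, kap_tmul]
    congr 1
    change _ = kEquiv W V' Z' (TensorProduct.map A B ((kEquiv W V Z).symm
      (kEquiv W V Z (x ⊗ₜ[W.K] z))))
    rw [LinearEquiv.symm_apply_apply, TensorProduct.map_tmul]
  exact LinearMap.congr_fun h1 c

theorem kap_rTensor {V V' Z : 𝒱.Obj} (A : W.H V →ₗ[W.K] W.H V')
    (c : W.H V ⊗[W.K] (W.H Z ⊗[W.K] M)) :
    kap W V' Z M (A.rTensor (W.H Z ⊗[W.K] M) c) =
      (t2 (X' := Z) (Y' := Z) A LinearMap.id).rTensor M (kap W V Z M c) := by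
  have h1 := kap_map (M := M) (Z := Z) (Z' := Z) A LinearMap.id LinearMap.id c
  rw [TensorProduct.map_id] at h1
  exact h1

/-- the system of the products with `Z` -/
noncomputable def shift (C : ∀ V : 𝒱.Obj, AddSubgroup (W.H V ⊗[W.K] M)) (Z V : 𝒱.Obj) :
    AddSubgroup (W.H V ⊗[W.K] (W.H Z ⊗[W.K] M)) :=
  (C (V.prod Z)).comap (kap W V Z M).toLinearMap.toAddMonoidHom

theorem mem_shift {Z : 𝒱.Obj} {c : W.H V ⊗[W.K] (W.H Z ⊗[W.K] M)} :
    c ∈ shift C Z V ↔ kap W V Z M c ∈ C (V.prod Z) := Iff.rfl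

theorem OpSys.shift (hC : OpSys C) (Z : 𝒱.Obj) : OpSys (shift C Z) where
  rational V q c hc := by
    rw [mem_shift] at hc ⊢
    rw [map_smul]
    exact hC.rational _ q _ hc
  op := by
    intro V V' A hA c hc
    rw [mem_shift] at hc ⊢
    rw [kap_rTensor]
    exact hC.op (aop_t2 hA aop_id) _ hc

end sys

variable {Γ : Type w} [Group Γ] {X Y : 𝒱.Obj} {f : X ⟶ Y} {n : ℕ}
  {ρ : Γ →* (W.H X ≃ₐ[W.K] W.H X)} {ρY : Γ →* (W.H Y ≃ₐ[W.K] W.H Y)}
  {τ : Γ →* (M →ₗ[W.K] M)} {s : W.H X →ₗ[W.K] W.H Y}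

/-- **The structure of the fixed classes.** -/
theorem core_nc (h : Data (1 : Γ →* W.Kˣ) f ρ ρY s) (v : VB W f) {g₀ : Γ}
    (hY : ρY g₀ = 1) (hτ : τ g₀ = 1) (hPL : PLAct (W.tr X) (vanishing W f) ρ g₀)
    (hK : Even X.dim → FewRoots W.K ∧ n + 1 < Module.finrank W.K (vanishing W f))
    {c : W.H (power ops X n) ⊗[W.K] M} {Δ : Subgroup Γ} (hΔ : Δ.FiniteIndex)
    (hc : ∀ g ∈ Δ, TensorProduct.map (pact ρ n g) (τ g) c = c)
    {C : AddSubgroup (W.H (power ops X n) ⊗[W.K] M)} (hr : IsRational C)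
    (hC : ∀ (q : Fin (n + 1) → Option (Fin (2 * X.dim + 1))) (m : ℕ)
      (e e' : Fin m × Fin 2 ≃ Free q),
      (mext (ops := ops) v e).rTensor M ((ctrOp (ops := ops) v s q e').rTensor M c) ∈ C) :
    c ∈ C := by
  have hc1 : ∀ g ∈ Δ, TensorProduct.map (pact ρ n g) (τ g) c =
      (((1 : Γ →* W.Kˣ) g : W.Kˣ) : W.K) • c := by
    intro g hg
    rw [hc g hg, MonoidHom.one_apply, Units.val_one, one_smul]
  have hsum : c = ∑ q : Fin (n + 1) → Option (Fin (2 * X.dim + 1)),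
      (tens (piq f s q)).rTensor M c := by
    have h1 := congrArg (fun A => LinearMap.rTensorHom M A c)
      (sum_piq (ops := ops) (n := n) (f := f) s)
    beta_reduce at h1
    rw [map_sum, LinearMap.sum_apply] at h1
    simp only [LinearMap.coe_rTensorHom, LinearMap.rTensor_id, LinearMap.id_apply] at h1
    exact h1.symm
  rw [hsum]
  refine sum_mem fun q _ => ?_
  obtain ⟨L, m, e, F, hF⟩ := core_z (D := 2 * X.dim + 1) h v (τ := τ) (μ := 1) (g₀ := g₀) rfl rfl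
    hY hτ hPL hK hΔ hc1 q
  rw [hF]
  refine sum_mem fun l _ => ?_
  rw [map_sum]
  refine sum_mem fun l₁ _ => ?_
  rw [map_smul]
  refine hr _ _ ?_
  have hm : m l = m l₁ := by
    have h4 := card_free (e l)
    have h5 := card_free (e l₁)
    omega
  have key : ∀ (m₁ : ℕ) (e₁ : Fin m₁ × Fin 2 ≃ Free q) (e₂ : Fin (m l) × Fin 2 ≃ Free q),
      m l = m₁ → (mext (ops := ops) v e₂).rTensor M
        ((ctrOp (ops := ops) v s q e₁).rTensor M c) ∈ C := by
    rintro m₁ e₁ e₂ rfl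
    exact hC q _ e₂ e₁
  exact key _ _ _ hm

theorem aop_mext (v : VB W f) (hQ : AS W (X.prod X) (dQ v)) {D m : ℕ}
    {q : Fin (n + 1) → Option (Fin D)} (e : Fin m × Fin 2 ≃ Free q) :
    AOp W (power ops Y n) (power ops X n) (mext (ops := ops) v e) :=
  (aop_mulLeft (mtch_as v hQ e)).comp (aop_map _)

/-- the tensor product of the actions -/
noncomputable def tensAct {Z : 𝒱.Obj} (ρ : Γ →* (W.H Z ≃ₐ[W.K] W.H Z))
    (τ : Γ →* (M →ₗ[W.K] M)) : Γ →* (W.H Z ⊗[W.K] M →ₗ[W.K] W.H Z ⊗[W.K] M) where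
  toFun g := TensorProduct.map (ρ g).toLinearMap (τ g)
  map_one' := TensorProduct.ext' fun a m => by
    rw [TensorProduct.map_tmul, map_one ρ, map_one τ]
    rfl
  map_mul' g h := TensorProduct.ext' fun a m => by
    rw [TensorProduct.map_tmul, map_mul ρ, map_mul τ]
    rfl

theorem LefschetzStep.data {N : ℕ} {X Y Z : GVar W Γ} {f : X.X ⟶ Y.X}
    (h : LefschetzStep N X Y Z f τ) :
    ∃ s, Data (1 : Γ →* W.Kˣ) f X.act Y.act s ∧ ∀ i, AOp W X.X Y.X (sd s i) := by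
  obtain ⟨s, hs, ha⟩ := h.retract
  refine ⟨s, ⟨h.galois.gr_mem, h.galois.tr_act, h.equivariant, ⟨hs.gr_mem, hs.sub_mem, hs.ker⟩,
    hs.act, h.middle, h.irreducible⟩, fun i => ?_⟩
  obtain ⟨c, hc, hci⟩ := ha i
  exact aop_of_induces (j := X.X.dim) hc hci

/-- `c` is fixed by a subgroup of finite index. -/
def Fix (X : GVar W Γ) (n : ℕ) (τ : Γ →* (M →ₗ[W.K] M))
    (c : W.H (power ops X.X n) ⊗[W.K] M) : Prop :=
  ∃ Δ : Subgroup Γ, Δ.FiniteIndex ∧ ∀ g ∈ Δ, TensorProduct.map (pact X.act n g) (τ g) c = c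

/-- **The Lefschetz theorem for two systems.** -/
theorem two_systems {X Y Z : GVar W Γ} {f : X.X ⟶ Y.X} (h : LefschetzStep (n + 1) X Y Z f τ)
    {Q P : ∀ V : 𝒱.Obj, AddSubgroup (W.H V ⊗[W.K] (W.H Z.X ⊗[W.K] M))} (hQ : OpSys Q)
    (hP : OpSys P)
    (hQP : ∀ c ∈ Q (power ops Y.X n), Fix Y n (tensAct Z.act τ) c → c ∈ P (power ops Y.X n))
    {c : W.H (power ops X.X n) ⊗[W.K] (W.H Z.X ⊗[W.K] M)} (hc : c ∈ Q (power ops X.X n))
    (hf : Fix X n (tensAct Z.act τ) c) : c ∈ P (power ops X.X n) := by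
  have hK : Even X.X.dim → FewRoots W.K ∧ n + 1 < Module.finrank W.K (vanishing W f) :=
    h.large
  obtain ⟨g₀, h2, hZ, hM, hPL⟩ := h.node
  have h3 : tensAct Z.act τ g₀ = 1 := by
    apply TensorProduct.ext'
    intro z m
    change Z.act g₀ z ⊗ₜ[W.K] τ g₀ m = z ⊗ₜ[W.K] m
    rw [hZ, hM]
  obtain ⟨s, hd, ha⟩ := h.data
  obtain ⟨v⟩ := exists_VB hd.transfer
  have hdQ := dQ_as hd v ha
  obtain ⟨Δ, hΔ, hfix⟩ := hf
  refine core_nc hd v (act_eq_one h2) h3 hPL hK hΔ hfix (hP.rational _)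
    fun q m e e' => ?_
  refine hP.op (aop_mext v hdQ e) _ (hQP _
    (hQ.op (aop_ctr v hd.transfer hd.middle ha hdQ q e') _ hc) ?_)
  obtain ⟨Δ', hΔ', hs'⟩ := hd.seq
  refine ⟨Δ ⊓ Δ', inferInstance, fun g hg => ?_⟩
  have h10 := ctr_act (ops := ops) hd v (hs' g hg.2) e' (tensAct Z.act τ g) c
  rw [hfix g hg.1, MonoidHom.one_apply, Units.val_one, one_pow, one_smul] at h10
  exact h10.symm

/-- fixed classes on products -/
theorem fix_prod {X Z : GVar W Γ} {υ : Act W Γ (powProd ops X.X n Z.X)} (hV : IsProdAct X n Z υ)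
    (c : W.H (power ops X.X n) ⊗[W.K] (W.H Z.X ⊗[W.K] M)) :
    Fix X n (tensAct Z.act τ) c ↔ IsFixed υ τ (kap W (power ops X.X n) Z.X M c) := by
  have hυ := hV.factor
  have hυ' := hV.last
  have h1 : ∀ g, kap W (power ops X.X n) Z.X M
      (TensorProduct.map (pact X.act n g) (tensAct Z.act τ g) c) =
      TensorProduct.map (υ g).toLinearMap (τ g) (kap W (power ops X.X n) Z.X M c) := by
    intro g
    have h2 := kap_map (M := M) (pact X.act n g) (Z.act g).toLinearMap (τ g) c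
    refine h2.trans ?_
    have h3 : (υ g).toLinearMap = t2 (pact X.act n g) (lact Z.act g) := act_t2 hυ hυ' g
    rw [h3]
    rfl
  constructor
  · rintro ⟨Δ, hΔ, h⟩
    refine ⟨Δ, hΔ, fun g hg => ?_⟩
    rw [← h1, h g hg]
  · rintro ⟨Δ, hΔ, h⟩
    refine ⟨Δ, hΔ, fun g hg => ?_⟩
    apply (kap W (power ops X.X n) Z.X M).injective
    rw [h1]
    exact h g hg

end Pool.Agent.N174.NC
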