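import Pool.Agent.N174.NC.SDefs

/-!
# The noncommutative Hodge conjecture for products: definitions
-/

open CategoryTheory AlgebraicGeometry

universe u v w

namespace Pool.Agent.N174.NC

open Pool.Agent.H914 Pool.Agent.H914.VarClass Pool.Agent.H914.VarClass.Obj
  Pool.Agent.H914.WeilCohomology Pool.Agent.TH125.Gal

variable {k : Type u} [Field k] {𝒱 : VarClass k} {ops : CycleOps 𝒱}

/-- An admissible subcategory `𝒞`: its topological K-theory `M` with coefficients in the field
`W.K`, with an action of the group `Γ`, and for all varieties `V` in `𝒱` the Hodge classes and the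
classes of objects (with rational coefficients) in the topological K-theory `H(V) ⊗ M` of
`D(V) ⊠ 𝒞`. The Hodge classes and the classes of objects are systems of classes: rational
subspaces stable under pull-back and push-forward by the morphisms in `𝒱`, and under the product
with the classes of cycles. -/
structure HodgeCat (W : WeilCohomology.{u, v} ops) (Γ : Type w) [Group Γ] where
  /-- the topological K-theory of `𝒞` -/
  M : Type v
  [grp : AddCommGroup M]
  [mod : Module W.K M]
  /-- the action -/
  act : Rep W.K M Γ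
  /-- the Hodge classes -/
  hodge : ∀ V : 𝒱.Obj, Sub W.K (W.H V) M
  /-- the combinations of the classes of objects -/
  objects : ∀ V : 𝒱.Obj, Sub W.K (W.H V) M
  hodge_system : IsSystem hodge
  objects_system : IsSystem objects

attribute [instance] HodgeCat.grp HodgeCat.mod

variable {W : WeilCohomology.{u, v} ops} {Γ : Type w} [Group Γ]

/-- The noncommutative Hodge conjecture for `D(V) ⊠ 𝒞`: all Hodge classes are combinations of
classes of objects. -/
def NCHodge (𝒞 : HodgeCat W Γ) (V : 𝒱.Obj) : Prop := Contained (𝒞.hodge V) (𝒞.objects V)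

/-- Every Hodge class of `D(V) ⊠ 𝒞` is fixed by a subgroup of finite index of `Γ`. -/
def HodgeFixed (𝒞 : HodgeCat W Γ) (V : 𝒱.Obj) (υ : Act W Γ V) : Prop :=
  AllFixed (𝒞.hodge V) υ 𝒞.act

/-- The varieties obtained from the variety `V₀` by the following steps. Let `𝒞` be an admissible
subcategory with an action of the monodromy group `Γ`.

* `lefschetz`: from `Y ^ (n + 1) × Z` to `X ^ (n + 1) × Z`, where `f : X ⟶ Y` is of Lefschetz type,
  some element of `Γ` acts trivially on the cohomology of `Y` and of `Z` and on `M`, and by a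
  Picard-Lefschetz formula on the vanishing cohomology, and the Hodge classes of
  `D(X ^ (n + 1) × Z) ⊠ 𝒞` are fixed by subgroups of finite index of `Γ`;
* `decomposable`: from `Z` to `Y × Z`, where the diagonal of `Y` is decomposable;
* `dominated`: from `V` to varieties dominated by `V`. -/
inductive Reach (𝒞 : HodgeCat W Γ) (V₀ : 𝒱.Obj) : 𝒱.Obj → Prop
  | base : Reach 𝒞 V₀ V₀
  | lefschetz {X Y Z : GVar W Γ} {n : ℕ} {f : X.X ⟶ Y.X} {υ : Act W Γ (powProd ops X.X n Z.X)} :
      Reach 𝒞 V₀ (powProd ops Y.X n Z.X) → LefschetzStep (n + 1) X Y Z f 𝒞.act →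
      IsProdAct X n Z υ → HodgeFixed 𝒞 _ υ → Reach 𝒞 V₀ (powProd ops X.X n Z.X)
  | decomposable {Y Z : 𝒱.Obj} : Reach 𝒞 V₀ Z → DecomposableDiagonal W Y →
      Reach 𝒞 V₀ (Y.prod Z)
  | dominated {V V' : 𝒱.Obj} (g : V ⟶ V') : Reach 𝒞 V₀ V → Dominates W g → Reach 𝒞 V₀ V'

end Pool.Agent.N174.NC
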