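import Pool.Agent.N174.NC.Core
import Pool.Agent.N174.NC.HDefs
import Pool.Agent.N174.Lef.PLef

/-!
# The noncommutative Hodge conjecture for products
-/

open CategoryTheory AlgebraicGeometry TensorProduct

set_option linter.unusedSectionVars false

universe u v w

namespace Pool.Agent.N174.NC

open Pool.Agent.H914 Pool.Agent.H914.VarClass Pool.Agent.H914.VarClass.Obj
  Pool.Agent.H914.WeilCohomology Pool.Agent.H281R3.HT Pool.Agent.W552 Pool.Agent.TH125.Gal
  Pool.Agent.N174.Lef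

variable {k : Type u} [Field k] {𝒱 : VarClass k} {ops : CycleOps 𝒱}
  {W : WeilCohomology.{u, v} ops} {M : Type v} [AddCommGroup M] [Module W.K M]

/-- dominated varieties -/
theorem dom_step {V V' : 𝒱.Obj} {g : V ⟶ V'} (hg : Dominates W g)
    {P : ∀ V : 𝒱.Obj, AddSubgroup (W.H V ⊗[W.K] M)} (hP : IsSystem P)
    {c : W.H V' ⊗[W.K] M} (hc : (W.map g).toLinearMap.rTensor M c ∈ P V) : c ∈ P V' := by
  obtain ⟨j, a, ha, h1⟩ := hg
  have h2 := hP.push g _ (hP.mul _ _ a ha _ hc)
  have h3 : (W.push g ∘ₗ LinearMap.mulLeft W.K a) ∘ₗ (W.map g).toLinearMap = LinearMap.id := by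
    apply LinearMap.ext
    intro b
    change W.push g (a * W.map g b) = b
    rw [W.push_mul, h1, one_mul]
  rw [← LinearMap.comp_apply, ← LinearMap.comp_apply, ← LinearMap.rTensor_comp,
    ← LinearMap.rTensor_comp, h3, LinearMap.rTensor_id] at h2
  exact h2

theorem t2_decomp {Y Z : 𝒱.Obj} (a b : W.H Y) {i : ℕ} (hb : b ∈ W.gr Y (2 * i)) :
    t2 (X' := Z) (Y' := Z) (W.corr (W.map (fst Y Y) a * W.map (snd Y Y) b)) LinearMap.id =
      (LinearMap.mulLeft W.K (W.map (fst Y Z) b) ∘ₗ (W.map (snd Y Z)).toLinearMap) ∘ₗ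
        (W.push (snd Y Z) ∘ₗ LinearMap.mulLeft W.K (W.map (fst Y Z) a)) := by
  refine ext2 fun y z => ?_
  rw [t2_apply]
  have h1 : W.corr (W.map (fst Y Y) a * W.map (snd Y Y) b) y = W.tr Y (a * y) • b := by
    rw [corr_apply, mul_assoc, W.even_comm (W.map_mem _ hb), ← mul_assoc, ← map_mul, push_snd]
  rw [h1]
  change _ = W.map (fst Y Z) b * W.map (snd Y Z) (W.push (snd Y Z)
    (W.map (fst Y Z) a * (W.map (fst Y Z) y * W.map (snd Y Z) z)))
  rw [← mul_assoc (W.map (fst Y Z) a), ← map_mul (W.map (fst Y Z)), push_snd, map_smul, map_smul,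
    smul_mul_assoc, mul_smul_comm]
  rfl

/-- the integration over `Y` -/
noncomputable def intg {Y : 𝒱.Obj} (Z : 𝒱.Obj) (a : W.H Y) : W.H (Y.prod Z) →ₗ[W.K] W.H Z :=
  W.push (snd Y Z) ∘ₗ LinearMap.mulLeft W.K (W.map (fst Y Z) a)

/-- varieties with a decomposable diagonal -/
theorem dec_step {Y Z : 𝒱.Obj} (hY : DecomposableDiagonal W Y)
    {P : ∀ V : 𝒱.Obj, AddSubgroup (W.H V ⊗[W.K] M)} (hP : OpSys P)
    {c : W.H (Y.prod Z) ⊗[W.K] M}
    (h : ∀ i, ∀ a ∈ cycles W Y i, (intg Z a).rTensor M c ∈ P Z) : c ∈ P (Y.prod Z) := by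
  have key : ∀ δ ∈ AddSubgroup.closure {c | ∃ i j, ∃ a ∈ cycles W Y i, ∃ b ∈ cycles W Y j,
      c = W.map (fst Y Y) a * W.map (snd Y Y) b},
      (t2 (X' := Z) (Y' := Z) (W.corr δ) LinearMap.id).rTensor M c ∈ P (Y.prod Z) := by
    intro δ hδ
    induction hδ using AddSubgroup.closure_induction with
    | mem δ hδ =>
      obtain ⟨i, j, a, ha, b, hb, rfl⟩ := hδ
      rw [t2_decomp a b (alg_gr hb), LinearMap.rTensor_comp, LinearMap.comp_apply]
      exact hP.op ((aop_mulLeft ((AS.of hb).map _)).comp (aop_map _)) _ (h i a ha)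
    | zero =>
      rw [corr_zero]
      have h1 : t2 (X' := Z) (Y' := Z) (0 : W.H Y →ₗ[W.K] W.H Y) LinearMap.id = 0 := by
        refine ext2 fun y z => ?_
        rw [t2_apply]
        simp
      rw [h1, LinearMap.rTensor_zero]
      exact zero_mem _
    | add a b _ _ ha hb =>
      rw [corr_add]
      have h1 : t2 (X' := Z) (Y' := Z) (W.corr a + W.corr b) LinearMap.id =
          t2 (X' := Z) (Y' := Z) (W.corr a) LinearMap.id +
          t2 (X' := Z) (Y' := Z) (W.corr b) LinearMap.id := by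
        refine ext2 fun y z => ?_
        rw [t2_apply, LinearMap.add_apply, LinearMap.add_apply, t2_apply, t2_apply, map_add,
          add_mul]
      rw [h1, rTensor_add']
      exact add_mem ha hb
    | neg a _ ha =>
      have h0 : W.corr (-a) = (-1 : W.K) • W.corr a := by
        rw [← corr_smul, neg_one_smul]
      rw [h0]
      have h1 : t2 (X' := Z) (Y' := Z) ((-1 : W.K) • W.corr a) LinearMap.id =
          (-1 : W.K) • t2 (X' := Z) (Y' := Z) (W.corr a) LinearMap.id := by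
        refine ext2 fun y z => ?_
        rw [t2_apply, LinearMap.smul_apply, LinearMap.smul_apply, t2_apply, map_smul,
          smul_mul_assoc]
      rw [h1, LinearMap.rTensor_smul, LinearMap.smul_apply, neg_one_smul]
      exact neg_mem ha
  have h1 := key _ hY
  have h2 : W.corr (W.push (diag Y) (1 : W.H Y)) = LinearMap.id := by
    apply LinearMap.ext
    intro a
    rw [W.corr_diag, one_mul]
    rfl
  rw [h2] at h1
  have h3 : t2 (X' := Z) (Y' := Z) (LinearMap.id : W.H Y →ₗ[W.K] W.H Y) LinearMap.id =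
      LinearMap.id := by
    refine ext2 fun y z => ?_
    rw [t2_apply]
    rfl
  rw [h3, LinearMap.rTensor_id] at h1
  exact h1

variable {Γ : Type w} [Group Γ]

/-- the Lefschetz step -/
theorem lef_step {X Y Z : GVar W Γ} {n : ℕ} {f : X.X ⟶ Y.X} {τ : Γ →* (M →ₗ[W.K] M)}
    {υ : Act W Γ (powProd ops X.X n Z.X)}
    (h : LefschetzStep (n + 1) X Y Z f τ) (hV : IsProdAct X n Z υ)
    {Q P : ∀ V : 𝒱.Obj, AddSubgroup (W.H V ⊗[W.K] M)} (hQ : OpSys Q) (hP : OpSys P)
    (hQP : ∀ c ∈ Q ((power ops Y.X n).prod Z.X), Fix Y n (tensAct Z.act τ)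
      ((kap W (power ops Y.X n) Z.X M).symm c) → c ∈ P ((power ops Y.X n).prod Z.X))
    {c : W.H (powProd ops X.X n Z.X) ⊗[W.K] M} (hc : c ∈ Q (powProd ops X.X n Z.X))
    (hf : IsFixed υ τ c) : c ∈ P (powProd ops X.X n Z.X) := by
  set c' := (kap W (power ops X.X n) Z.X M).symm c with hc'
  have hcc : kap W (power ops X.X n) Z.X M c' = c := LinearEquiv.apply_symm_apply _ _
  have h1 : Fix X n (tensAct Z.act τ) c' := (fix_prod (τ := τ) hV c').2 (by
    rw [← hcc] at hf
    exact hf)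
  have h2 := two_systems h (hQ.shift Z.X) (hP.shift Z.X) (c := c') (fun d hd hfd => by
    rw [mem_shift] at hd ⊢
    exact hQP _ hd (by rwa [LinearEquiv.symm_apply_apply])) (by
      rw [mem_shift, hcc]
      exact hc) h1
  rw [mem_shift, hcc] at h2
  exact h2

/-- **The noncommutative Hodge conjecture for products.** -/
theorem ncHodge_of_reach {𝒞 : HodgeCat W Γ} {V₀ V : 𝒱.Obj} (h : Reach 𝒞 V₀ V)
    (h₀ : NCHodge 𝒞 V₀) : NCHodge 𝒞 V := by
  induction h with
  | base => exact h₀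
  | lefschetz _ hf hV hfix ih =>
    intro c hc
    exact lef_step hf hV 𝒞.hodge_system.opSys 𝒞.objects_system.opSys (fun d hd _ => ih hd) hc
      (hfix c hc)
  | decomposable _ hY ih =>
    intro c hc
    exact dec_step hY 𝒞.objects_system.opSys fun i a ha => ih (𝒞.hodge_system.opSys.op
      ((aop_push _).comp (aop_mulLeft ((AS.of ha).map _))) _ hc)
  | dominated g _ hg ih =>
    intro c hc
    exact dom_step hg 𝒞.objects_system (ih (𝒞.hodge_system.pull g _ hc))

end Pool.Agent.N174.NC
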