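import Pool.Agent.TH125.Gal.Pub

/-!
# Varieties times admissible subcategories: definitions

In the intended use the varieties `V` of the class `𝒱` are the generic fibres of smooth projective
families over a complex variety `S`, `W.H V` is the cohomology of a fibre, `𝒞` is an admissible
subcategory of `D^perf(T)`, or a family of such subcategories over `S`, and `M` is its topological
K-theory (even and odd part together). By the Chern character `W.H V ⊗ M` is the topological
K-theory of the admissible subcategory `D(V) ⊠ 𝒞` of `D^perf(V × T)`. The group `Γ` is the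
fundamental group of `S`.
-/

open CategoryTheory AlgebraicGeometry TensorProduct

universe u v w

namespace Pool.Agent.N174.NC

open Pool.Agent.TH125.Gal

section Alg

/-- The subgroups of `A ⊗ M`. -/
abbrev Sub (K A M : Type v) [Field K] [Ring A] [Algebra K A] [AddCommGroup M] [Module K M] :
    Type v :=
  AddSubgroup (A ⊗[K] M)

/-- The linear representations of `Γ` on `M`. -/
abbrev Rep (K M : Type v) [Field K] [AddCommGroup M] [Module K M] (Γ : Type w) [Group Γ] :
    Type (max v w) :=
  Γ →* (M →ₗ[K] M)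

variable {K : Type v} [Field K] {A : Type v} [Ring A] [Algebra K A] {B : Type v} [Ring B]
  [Algebra K B] {C : Type v} [Ring C] [Algebra K C] {M : Type v} [AddCommGroup M] [Module K M]
  {Γ : Type w} [Group Γ]

/-- The subgroup `U` is stable under the multiplication by rational numbers. -/
def IsRational (U : Sub K A M) : Prop := ∀ q : ℚ, ∀ c ∈ U, (q : K) • c ∈ U

/-- The map `f ⊗ id` maps the subgroup `U` of `A ⊗ M` into the subgroup `U'` of `B ⊗ M`. -/
def MapsTo (f : A →ₗ[K] B) (U : Sub K A M) (U' : Sub K B M) : Prop :=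
  ∀ c ∈ U, f.rTensor M c ∈ U'

/-- The same for a homomorphism of algebras. -/
def PullsTo (f : A →ₐ[K] B) (U : Sub K A M) (U' : Sub K B M) : Prop := MapsTo f.toLinearMap U U'

/-- The products of the elements of the sets `S j` and of elements of `U` are in `U`. -/
def MulTo (S : ℕ → Set A) (U : Sub K A M) : Prop :=
  ∀ j, ∀ a ∈ S j, MapsTo (LinearMap.mulLeft K a) U U

/-- The subgroup `U` is contained in `U'`. -/
def Contained (U U' : Sub K A M) : Prop := U ≤ U'

/-- The group `Γ` acts on `A` by `ρ` and on `M` by `τ`. The element `c` of `A ⊗ M` is fixed by a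
subgroup of finite index of `Γ`. -/
def IsFixed (ρ : Γ →* (A ≃ₐ[K] A)) (τ : Rep K M Γ) (c : A ⊗[K] M) : Prop :=
  ∃ Δ : Subgroup Γ, Δ.FiniteIndex ∧ ∀ g ∈ Δ, TensorProduct.map (ρ g).toLinearMap (τ g) c = c

/-- All elements of `U` are fixed by subgroups of finite index. -/
def AllFixed (U : Sub K A M) (ρ : Γ →* (A ≃ₐ[K] A)) (τ : Rep K M Γ) : Prop :=
  ∀ c ∈ U, IsFixed ρ τ c

/-- The element `δ` is a sum of products `p a * q b`, where `a` and `b` are in the sets `S j`. -/
def IsDecomposable (p q : A →ₐ[K] B) (S : ℕ → Set A) (δ : B) : Prop :=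
  δ ∈ AddSubgroup.closure {c | ∃ i j, ∃ a ∈ S i, ∃ b ∈ S j, c = p a * q b}

/-- The element `1` is the image of an element of a set `S j`. -/
def HitsOne (p : A →ₗ[K] B) (S : ℕ → Set A) : Prop := ∃ j, ∃ a ∈ S j, p a = 1

/-- The action `υ` is trivial on the image of `f`. -/
def FixesImage (f : A →ₐ[K] B) (υ : Γ →* (B ≃ₐ[K] B)) : Prop := ∀ g a, υ g (f a) = f a

/-- The linear map `s : A → B` preserves the degrees, it is zero on the subspace `T` of `A`, and
`a - f (s a)` is in `T` for all `a`, where `f : B → A`. It is equivariant for a subgroup of finite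
index of `Γ`. -/
structure IsRetraction (grA : ℕ → Submodule K A) (grB : ℕ → Submodule K B) (f : B →ₐ[K] A)
    (T : Submodule K A) (ρ : Γ →* (A ≃ₐ[K] A)) (ρ' : Γ →* (B ≃ₐ[K] B)) (s : A →ₗ[K] B) :
    Prop where
  gr_mem : ∀ i, ∀ a ∈ grA i, s a ∈ grB i
  sub_mem : ∀ a, a - f (s a) ∈ T
  ker : ∀ a ∈ T, s a = 0
  act : ∃ Δ : Subgroup Γ, Δ.FiniteIndex ∧ ∀ g ∈ Δ, ∀ a, s (ρ g a) = ρ' g (s a)

/-- The map `a ↦ q (c p(a))` is equal to `s` in degree `i`, and zero in all other degrees. -/
def InducedBy (gr : ℕ → Submodule K A) (p : A →ₐ[K] C) (q : C →ₗ[K] B) (s : A →ₗ[K] B) (i : ℕ)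
    (c : C) : Prop :=
  ∀ j, ∀ a ∈ gr j, q (c * p a) = if j = i then s a else 0

/-- There is a linear map `s : A → B` as in `IsRetraction` which is in each degree induced by an
element of the set `S`. -/
def HasAlgRetraction (grA : ℕ → Submodule K A) (grB : ℕ → Submodule K B) (f : B →ₐ[K] A)
    (T : Submodule K A) (ρ : Γ →* (A ≃ₐ[K] A)) (ρ' : Γ →* (B ≃ₐ[K] B)) (p : A →ₐ[K] C)
    (q : C →ₗ[K] B) (S : Set C) : Prop :=
  ∃ s : A →ₗ[K] B, IsRetraction grA grB f T ρ ρ' s ∧ ∀ i, ∃ c ∈ S, InducedBy grA p q s i c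

/-- Formal properties of a morphism of Lefschetz type `X ⟶ Y`, where `A = H(X)`, `B = H(Y)`,
`D = H(X × Y)` and `n = dim X`: the action of `Γ` on `A` preserves the degrees, the trace and the
classes of cycles; `f : B → A` is equivariant and has a retraction along `T` given by elements of
`S'`; the subspace `T` is in degree `n` and irreducible under all subgroups of finite index of `Γ`;
some `g` acts trivially on `B`, `C` and `M`, and by a Picard-Lefschetz formula on `T`. If `n` is
even, the field contains only finitely many `ζ + ζ⁻¹`, `ζ` a root of unity, and the dimension of `T`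
is greater than `N`. -/
structure LefschetzStepAct {D : Type v} [Ring D] [Algebra K D] (N n : ℕ)
    (grA : ℕ → Submodule K A) (grB : ℕ → Submodule K B) (tr : A →ₗ[K] K) (S : ℕ → Set A)
    (f : B →ₐ[K] A) (T : Submodule K A) (p : A →ₐ[K] D) (q : D →ₗ[K] B) (S' : Set D)
    (ρ : Γ →* (A ≃ₐ[K] A)) (ρ' : Γ →* (B ≃ₐ[K] B)) (ρ'' : Γ →* (C ≃ₐ[K] C)) (τ : Rep K M Γ) :
    Prop where
  galois : IsGaloisAct (1 : Γ →* Kˣ) grA n tr S ρ
  equivariant : Intertwines f ρ' ρ
  retract : HasAlgRetraction grA grB f T ρ ρ' p q S'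
  middle : T ≤ grA n
  irreducible : IrredAct ρ T
  node : ∃ g : Γ, TrivAct ρ' g ∧ TrivAct ρ'' g ∧ (∀ m, τ g m = m) ∧ PLAct tr T ρ g
  large : Even n → FewRoots K ∧ N < Module.finrank K T

end Alg

open Pool.Agent.H914 Pool.Agent.H914.VarClass Pool.Agent.H914.VarClass.Obj
  Pool.Agent.H914.WeilCohomology

variable {k : Type u} [Field k] {𝒱 : VarClass k} {ops : CycleOps 𝒱}

/-- The classes of the cycles of codimension `j` on `X` (with rational coefficients). -/
def cycles (W : WeilCohomology.{u, v} ops) (X : 𝒱.Obj) (j : ℕ) : Set (W.H X) :=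
  {c | ∃ z, X.IsCyc j z ∧ W.cl X z = c}

/-- The subgroups `U V` of `H(V) ⊗ M`, for the varieties `V` in `𝒱`, are stable under the
multiplication by rational numbers, under pull-back and push-forward by the morphisms in `𝒱`, and
under the product with the classes of cycles. -/
structure IsSystem {W : WeilCohomology.{u, v} ops} {M : Type v} [AddCommGroup M] [Module W.K M]
    (U : ∀ V : 𝒱.Obj, Sub W.K (W.H V) M) : Prop where
  rational : ∀ V, IsRational (U V)
  pull : ∀ {V V' : 𝒱.Obj} (f : V ⟶ V'), PullsTo (W.map f) (U V') (U V)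
  push : ∀ {V V' : 𝒱.Obj} (f : V ⟶ V'), MapsTo (W.push f) (U V) (U V')
  mul : ∀ V, MulTo (cycles W V) (U V)

variable {W : WeilCohomology.{u, v} ops} {Γ : Type w} [Group Γ]

/-- The morphism `f : X ⟶ Y` is of Lefschetz type over `Z` and the representation `M` of `Γ`: the
action of `Γ` on the cohomology of `X` preserves the degrees, the trace and the classes of cycles;
`f^*` is equivariant and has an equivariant retraction `s` along the vanishing cohomology
`E = ker f_*`, given in each degree by an algebraic correspondence (a cycle of codimension `dim X`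
on `X × Y`); `E` is in the middle degree and irreducible under all subgroups of finite index of
`Γ`; some element of `Γ` acts trivially on the cohomology of `Y` and of `Z` and on `M`, and by a
Picard-Lefschetz formula on `E`. If the dimension of `X` is even, the coefficient field contains
only finitely many `ζ + ζ⁻¹`, `ζ` a root of unity, and `N < dim E`. -/
def LefschetzStep (N : ℕ) (X Y Z : GVar W Γ) (f : X.X ⟶ Y.X) {M : Type v} [AddCommGroup M]
    [Module W.K M] (τ : Rep W.K M Γ) : Prop :=
  LefschetzStepAct N X.X.dim (W.gr X.X) (W.gr Y.X) (W.tr X.X) (cycles W X.X)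
    (W.map f) (LinearMap.ker (W.push f)) (W.map (fst X.X Y.X)) (W.push (snd X.X Y.X))
    (cycles W (X.X.prod Y.X) X.X.dim) X.act Y.act Z.act τ

/-- The product `X ^ (n + 1) × Z`. -/
noncomputable def powProd (ops : CycleOps 𝒱) (X : 𝒱.Obj) (n : ℕ) (Z : 𝒱.Obj) : 𝒱.Obj :=
  (power ops X n).prod Z

/-- The projections of `X ^ (n + 1) × Z` to the factors `X`. -/
noncomputable def toFactor (ops : CycleOps 𝒱) (X : 𝒱.Obj) (n : ℕ) (Z : 𝒱.Obj) (p : Fin (n + 1)) :
    powProd ops X n Z ⟶ X :=
  fst (power ops X n) Z ≫ powerPrj ops X n p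

/-- The projection of `X ^ (n + 1) × Z` to `Z`. -/
noncomputable def toLast (ops : CycleOps 𝒱) (X : 𝒱.Obj) (n : ℕ) (Z : 𝒱.Obj) :
    powProd ops X n Z ⟶ Z :=
  snd (power ops X n) Z

/-- The actions of `Γ` on the cohomology algebra of `V`. -/
abbrev Act (W : WeilCohomology.{u, v} ops) (Γ : Type w) [Group Γ] (V : 𝒱.Obj) : Type (max v w) :=
  Γ →* (W.H V ≃ₐ[W.K] W.H V)

/-- The action `υ` on the cohomology of `X ^ (n + 1) × Z` is compatible with the projections. -/
structure IsProdAct (X : GVar W Γ) (n : ℕ) (Z : GVar W Γ)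
    (υ : Act W Γ (powProd ops X.X n Z.X)) : Prop where
  factor : ∀ p, Intertwines (W.map (toFactor ops X.X n Z.X p)) X.act υ
  last : Intertwines (W.map (toLast ops X.X n Z.X)) Z.act υ

/-- The variety `V'` is dominated by `V`: `g : V ⟶ V'` is a morphism such that `1` is the direct
image of the class of a cycle on `V` (with rational coefficients). -/
def Dominates (W : WeilCohomology.{u, v} ops) {V V' : 𝒱.Obj} (g : V ⟶ V') : Prop :=
  HitsOne (W.push g) (cycles W V)

/-- The class of the diagonal of `Y` is a sum of products `p₁^* a * p₂^* b`, where `a` and `b` are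
classes of cycles (for instance, `Y` is a toric variety or a homogeneous space). -/
def DecomposableDiagonal (W : WeilCohomology.{u, v} ops) (Y : 𝒱.Obj) : Prop :=
  IsDecomposable (W.map (fst Y Y)) (W.map (snd Y Y)) (cycles W Y) (W.push (diag Y) 1)

end Pool.Agent.N174.NC
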