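import Pool.Agent.N174.NC.SDefs

/-!
# The noncommutative variational Hodge conjecture for products: definitions
-/

open CategoryTheory AlgebraicGeometry

universe u v w x

namespace Pool.Agent.N174.NC

open Pool.Agent.H914 Pool.Agent.H914.VarClass Pool.Agent.H914.VarClass.Obj
  Pool.Agent.H914.WeilCohomology Pool.Agent.TH125.Gal

section Alg

variable {K : Type v} [Field K] {A : Type v} [Ring A] [Algebra K A] {M : Type v} [AddCommGroup M]
  [Module K M] {Γ : Type w} [Group Γ]

/-- The elements of `A ⊗ M` fixed by a subgroup of finite index which are in `U s` for one `s` are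
in `U t` for all `t`. -/
def ConstantFixed {S : Type x} (U : S → Sub K A M) (ρ : Γ →* (A ≃ₐ[K] A)) (τ : Rep K M Γ) :
    Prop :=
  ∀ c, IsFixed ρ τ c → ∀ s, c ∈ U s → ∀ t, c ∈ U t

end Alg

variable {k : Type u} [Field k] {𝒱 : VarClass k} {ops : CycleOps 𝒱}

/-- A family of admissible subcategories `𝒞`: the topological K-theory `M` of a fibre with
coefficients in the field `W.K`, with an action of the group `Γ`, and for all varieties `V` in `𝒱`
and all points `s` the classes in `H(V) ⊗ M` which are in the point `s` combinations of classes of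
objects of the fibre of `D(V) ⊠ 𝒞` (with rational coefficients). They are systems of classes:
rational subspaces stable under pull-back and push-forward by the morphisms in `𝒱`, and under the
product with the classes of cycles. -/
structure CatFamily (W : WeilCohomology.{u, v} ops) (Γ : Type w) [Group Γ] (S : Type x) where
  /-- the topological K-theory of `𝒞` -/
  M : Type v
  [grp : AddCommGroup M]
  [mod : Module W.K M]
  /-- the action -/
  act : Rep W.K M Γ
  /-- the classes which come from objects in the point `s` -/
  objects : S → ∀ V : 𝒱.Obj, Sub W.K (W.H V) M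
  system : ∀ s, IsSystem (objects s)

attribute [instance] CatFamily.grp CatFamily.mod

variable {W : WeilCohomology.{u, v} ops} {Γ : Type w} [Group Γ] {S : Type x}

/-- The noncommutative variational Hodge conjecture for `D(V) ⊠ 𝒞`: if a class which is fixed by a
subgroup of finite index of `Γ` comes from objects in one point `s`, then it comes from objects in
all points `t`. -/
def NCVariational (𝒞 : CatFamily W Γ S) (V : 𝒱.Obj) (υ : Act W Γ V) : Prop :=
  ConstantFixed (fun s => 𝒞.objects s V) υ 𝒞.act

/-- The varieties (with an action of `Γ` on the cohomology) obtained from the variety `V₀` by the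
following steps:

* `lefschetz`: from `Y ^ (n + 1) × Z` to `X ^ (n + 1) × Z`, where `f : X ⟶ Y` is of Lefschetz type,
  and some element of `Γ` acts trivially on the cohomology of `Y` and of `Z` and on `M`, and by a
  Picard-Lefschetz formula on the vanishing cohomology;
* `decomposable`: from `Z` to `Y × Z` with a compatible action, where `Γ` acts trivially on the
  cohomology of `Y` and the diagonal of `Y` is decomposable;
* `dominated`: from `V` to varieties dominated by `V` with an equivariant pull-back. -/
inductive FamReach (𝒞 : CatFamily W Γ S) (V₀ : 𝒱.Obj) (υ₀ : Act W Γ V₀) :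
    ∀ V : 𝒱.Obj, Act W Γ V → Prop
  | base : FamReach 𝒞 V₀ υ₀ V₀ υ₀
  | lefschetz {X Y Z : GVar W Γ} {n : ℕ} {f : X.X ⟶ Y.X} {υ' : Act W Γ (powProd ops Y.X n Z.X)}
      {υ : Act W Γ (powProd ops X.X n Z.X)} : FamReach 𝒞 V₀ υ₀ _ υ' → IsProdAct Y n Z υ' →
      LefschetzStep (n + 1) X Y Z f 𝒞.act → IsProdAct X n Z υ → FamReach 𝒞 V₀ υ₀ _ υ
  | decomposable {Y Z : 𝒱.Obj} {υ' : Act W Γ Z} {υ : Act W Γ (Y.prod Z)} :
      FamReach 𝒞 V₀ υ₀ Z υ' → DecomposableDiagonal W Y → FixesImage (W.map (fst Y Z)) υ →
      Intertwines (W.map (snd Y Z)) υ' υ → FamReach 𝒞 V₀ υ₀ _ υ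
  | dominated {V V' : 𝒱.Obj} {υ : Act W Γ V} {υ' : Act W Γ V'} (g : V ⟶ V') :
      FamReach 𝒞 V₀ υ₀ V υ → Dominates W g → Intertwines (W.map g) υ' υ →
      FamReach 𝒞 V₀ υ₀ V' υ'

end Pool.Agent.N174.NC
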