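import Pool.Agent.N174.NC.HMain
import Pool.Agent.N174.NC.VDefs

/-!
# The noncommutative variational Hodge conjecture for products
-/

open CategoryTheory AlgebraicGeometry TensorProduct

set_option linter.unusedSectionVars false

universe u v w x

namespace Pool.Agent.N174.NC

open Pool.Agent.H914 Pool.Agent.H914.VarClass Pool.Agent.H914.VarClass.Obj
  Pool.Agent.H914.WeilCohomology Pool.Agent.H281R3.HT Pool.Agent.W552 Pool.Agent.TH125.Gal
  Pool.Agent.N174.Lef

variable {k : Type u} [Field k] {𝒱 : VarClass k} {ops : CycleOps 𝒱}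
  {W : WeilCohomology.{u, v} ops} {Γ : Type w} [Group Γ] {S : Type x}

/-- equivariance of the integration -/
theorem intg_act {Y Z : 𝒱.Obj} {υ : Act W Γ (Y.prod Z)} {υ' : Act W Γ Z}
    (h1 : FixesImage (W.map (fst Y Z)) υ) (h2 : Intertwines (W.map (snd Y Z)) υ' υ)
    (a : W.H Y) (g : Γ) :
    intg Z a ∘ₗ (υ g).toLinearMap = (υ' g).toLinearMap ∘ₗ intg Z a := by
  refine ext2 fun y z => ?_
  change W.push (snd Y Z) (W.map (fst Y Z) a * υ g (W.map (fst Y Z) y *
    W.map (snd Y Z) z)) = υ' g (W.push (snd Y Z) (W.map (fst Y Z) a *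
      (W.map (fst Y Z) y * W.map (snd Y Z) z)))
  rw [map_mul (υ g), h1 g y, h2 g z, ← mul_assoc, ← mul_assoc, ← map_mul (W.map (fst Y Z)),
    push_snd, push_snd, map_smul]

/-- **The noncommutative variational Hodge conjecture for products.** -/
theorem ncVariational_of_reach {𝒞 : CatFamily W Γ S} {V₀ V : 𝒱.Obj} {υ₀ : Act W Γ V₀}
    {υ : Act W Γ V} (h : FamReach 𝒞 V₀ υ₀ V υ) (h₀ : NCVariational 𝒞 V₀ υ₀) :
    NCVariational 𝒞 V υ := by
  induction h with
  | base => exact h₀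
  | @lefschetz X Y Z n f υ' υ _ hV' hf hV ih =>
    intro c hfc s hc t
    refine lef_step hf hV (Q := fun V => 𝒞.objects s V) (P := fun V => 𝒞.objects t V)
      (𝒞.system s).opSys (𝒞.system t).opSys (fun d hd hfd => ?_) hc hfc
    have h1 := (fix_prod (τ := 𝒞.act) hV' _).1 hfd
    rw [LinearEquiv.apply_symm_apply] at h1
    exact ih d h1 s hd t
  | @decomposable Y Z υ' υ _ hY hυ hυ' ih =>
    intro c hfc s hc t
    refine dec_step hY (𝒞.system t).opSys fun i a ha => ih _ ?_ s ((𝒞.system s).opSys.op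
      ((aop_push _).comp (aop_mulLeft ((AS.of ha).map _))) _ hc) t
    obtain ⟨Δ, hΔ, hfix⟩ := hfc
    refine ⟨Δ, hΔ, fun g hg => ?_⟩
    have h1 : TensorProduct.map (υ' g).toLinearMap (𝒞.act g) ∘ₗ (intg Z a).rTensor 𝒞.M =
        (intg Z a).rTensor 𝒞.M ∘ₗ TensorProduct.map (υ g).toLinearMap (𝒞.act g) := by
      apply TensorProduct.ext'
      intro b m
      change υ' g (intg Z a b) ⊗ₜ[W.K] 𝒞.act g m = intg Z a (υ g b) ⊗ₜ[W.K] 𝒞.act g m
      congr 1
      exact (LinearMap.congr_fun (intg_act hυ hυ' a g) b).symm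
    have h2 := LinearMap.congr_fun h1 c
    refine h2.trans ?_
    exact congrArg ((intg Z a).rTensor 𝒞.M) (hfix g hg)
  | @dominated V V' υ υ' g _ hg hi ih =>
    intro c hfc s hc t
    refine dom_step hg (𝒞.system t) (ih _ ?_ s ((𝒞.system s).pull g _ hc) t)
    obtain ⟨Δ, hΔ, hfix⟩ := hfc
    refine ⟨Δ, hΔ, fun γ hγ => ?_⟩
    have h1 : TensorProduct.map (υ γ).toLinearMap (𝒞.act γ) ∘ₗ
        (W.map g).toLinearMap.rTensor 𝒞.M = (W.map g).toLinearMap.rTensor 𝒞.M ∘ₗ
          TensorProduct.map (υ' γ).toLinearMap (𝒞.act γ) := by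
      apply TensorProduct.ext'
      intro a m
      change υ γ (W.map g a) ⊗ₜ[W.K] 𝒞.act γ m = W.map g (υ' γ a) ⊗ₜ[W.K] 𝒞.act γ m
      rw [hi γ a]
    have h2 := LinearMap.congr_fun h1 c
    refine h2.trans ?_
    exact congrArg ((W.map g).toLinearMap.rTensor 𝒞.M) (hfix γ hγ)

end Pool.Agent.N174.NC
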